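import Pool.Agent.H307R2.OP.T1
import Pool.Agent.H307R2.OP.PC
import Pool.Agent.H307R2.OP.ES

set_option autoImplicit false

/-!
# Odd values of the partition function in progressions modulo powers of two:
primes in progressions and tuples in progressions
-/

open Finset Filter Topology

namespace Pool.Agent.H413R3.Odd

open Pool.Agent.H307R2.OP

theorem totient_pow (b : ℕ) : (Nat.totient (8 * 2 ^ b) : ℝ) = 4 * 2 ^ b := by
  have h : 8 * 2 ^ b = 2 ^ (b + 3) := by rw [pow_add]; ring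
  rw [h, Nat.totient_prime_pow Nat.prime_two (by omega)]
  have h2 : b + 3 - 1 = b + 2 := by omega
  rw [h2, pow_add]
  push_cast
  ring

/-- lower bound for the number of primes in a residue class modulo a power of two -/
theorem lowAP : ∃ x0 : ℕ, ∀ x : ℕ, x0 ≤ x → ∀ b : ℕ, (8 * 2 ^ b : ℝ) ≤ Real.log x ^ 2 →
    ∀ a : ℕ, a % 2 = 1 →
    (x : ℝ) / (5 * Real.log x * 2 ^ b) ≤
      (((Icc 1 x).filter (fun p => p.Prime ∧ p % (8 * 2 ^ b) = a % (8 * 2 ^ b))).card : ℝ) := by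
  obtain ⟨x0, h⟩ := Pool.Agent.H387R2.Uni.siegel
  have h2 := PCaux.pi_tend.eventually (lt_mem_nhds (show (9 / 10 : ℝ) < 1 by norm_num))
  have h3 := PCaux.log_tend.eventually_ge_atTop 3
  obtain ⟨x1, hx1⟩ := eventually_atTop.1 (h2.and (h3.and (eventually_ge_atTop 1)))
  refine ⟨max x0 x1, fun x hx b hb a ha => ?_⟩
  obtain ⟨hpi, hlog, hx1'⟩ := hx1 x ((le_max_right _ _).trans hx)
  have hx0 : (0 : ℝ) < x := by exact_mod_cast hx1'
  have hL : 0 < Real.log (x : ℝ) := by linarith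
  have hq0 : 0 < 8 * 2 ^ b := by positivity
  have hcop : (a % (8 * 2 ^ b)).Coprime (8 * 2 ^ b) := by
    have h8 : 8 * 2 ^ b = 2 ^ (b + 3) := by rw [pow_add]; ring
    rw [h8]
    apply Nat.Coprime.pow_right
    rw [Nat.coprime_two_right, Nat.odd_iff]
    rw [Nat.mod_mod_of_dvd _ (Dvd.intro_left (2 ^ (b + 2)) (by rw [← pow_succ]))]
    exact ha
  have hs := h x ((le_max_left _ _).trans hx) (8 * 2 ^ b) hq0 (by push_cast; exact hb)
    (a % (8 * 2 ^ b)) (Nat.mod_lt _ hq0) hcop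
  rw [totient_pow] at hs
  have heq : H343E.piAP x (8 * 2 ^ b) (a % (8 * 2 ^ b)) =
      (((Icc 1 x).filter (fun p => p.Prime ∧ p % (8 * 2 ^ b) = a % (8 * 2 ^ b))).card : ℝ) := by
    unfold H343E.piAP
    congr 2
    ext p
    simp only [mem_filter, Nat.ModEq, Nat.mod_mod]
  rw [heq] at hs
  have hlow := (abs_le.1 hs).1
  have h2b : (0 : ℝ) < 2 ^ b := by positivity
  have hpi' : 9 / 10 * (x / Real.log x) ≤ H343E.pi1 x := by
    rw [lt_div_iff₀ hx0] at hpi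
    rw [mul_div_assoc', div_le_iff₀ hL]
    linarith
  have h5 : 9 / 40 * (x / (Real.log x * 2 ^ b)) ≤ H343E.pi1 x / (4 * 2 ^ b) := by
    have : 9 / 40 * (x / (Real.log x * 2 ^ b)) = 9 / 10 * (x / Real.log x) / (4 * 2 ^ b) := by
      field_simp
      ring
    rw [this]
    gcongr
  have h6 : x / Real.log x ^ 6 ≤ 1 / 40 * (x / (Real.log x * 2 ^ b)) := by
    rw [mul_div_assoc', div_le_div_iff₀ (by positivity) (by positivity)]
    have h7 : 40 * (2 : ℝ) ^ b ≤ Real.log x ^ 5 := by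
      have h8 : 40 * (2 : ℝ) ^ b ≤ 5 * Real.log x ^ 2 := by linarith
      have h9 : (27 : ℝ) ≤ Real.log x ^ 3 := by
        calc (27 : ℝ) = 3 ^ 3 := by norm_num
          _ ≤ Real.log x ^ 3 := pow_le_pow_left₀ (by norm_num) hlog 3
      have h10 : 0 ≤ Real.log x ^ 2 := by positivity
      calc 40 * (2 : ℝ) ^ b ≤ 5 * Real.log x ^ 2 := h8
        _ ≤ Real.log x ^ 3 * Real.log x ^ 2 := by nlinarith
        _ = Real.log x ^ 5 := by ring
    calc (x : ℝ) * (Real.log x * 2 ^ b) = 1 / 40 * x * Real.log x * (40 * 2 ^ b) := by ring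
      _ ≤ 1 / 40 * x * Real.log x * Real.log x ^ 5 := by gcongr
      _ = 1 / 40 * x * Real.log x ^ 6 := by ring
  have h11 : (x : ℝ) / (5 * Real.log x * 2 ^ b) = 1 / 5 * (x / (Real.log x * 2 ^ b)) := by
    field_simp
  rw [h11]
  linarith

theorem cube_two_pow (m : ℕ) (hm : 200 ≤ m) : (4 * m + 3) ^ 3 ≤ 2 ^ m := by
  induction m, hm using Nat.le_induction with
  | base => norm_num
  | succ n hn ih =>
    rw [pow_succ 2 n]
    have h1 : (4 * (n + 1) + 3) * 4 ≤ (4 * n + 3) * 5 := by omega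
    have h2 : ((4 * (n + 1) + 3) * 4) ^ 3 ≤ ((4 * n + 3) * 5) ^ 3 := Nat.pow_le_pow_left h1 3
    rw [mul_pow, mul_pow] at h2
    norm_num at h2
    omega

theorem cube_two_pow' (I : ℕ) (hI : 800 ≤ I) : I ^ 3 ≤ 2 ^ (I / 4) := by
  have h := cube_two_pow (I / 4) (by omega)
  have h2 : I ^ 3 ≤ (4 * (I / 4) + 3) ^ 3 := Nat.pow_le_pow_left (by omega) 3
  omega

/-- the large primes in a residue class -/
theorem prAP (x0 I b a D : ℕ) (hI : 800 ≤ I) (hx : 2 * x0 ≤ I) (hD : 1 ≤ D)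
    (hD8 : D ≤ 2 ^ (I / 8)) (hb : 32 * 2 ^ b ≤ I ^ 2) (ha : a % 2 = 1)
    (hlow : ∀ x : ℕ, x0 ≤ x → ∀ b : ℕ, (8 * 2 ^ b : ℝ) ≤ Real.log x ^ 2 →
    ∀ a : ℕ, a % 2 = 1 →
    (x : ℝ) / (5 * Real.log x * 2 ^ b) ≤
      (((Icc 1 x).filter (fun p => p.Prime ∧ p % (8 * 2 ^ b) = a % (8 * 2 ^ b))).card : ℝ)) :
    1 / 20 * (2 ^ I / (D * I)) / 2 ^ b ≤
      (((Ioc (2 ^ (I / 2)) (2 ^ I / D)).filter
        (fun p => p.Prime ∧ p % (8 * 2 ^ b) = a % (8 * 2 ^ b))).card : ℝ) := by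
  set x : ℕ := 2 ^ I / D with hxdef
  have hxI : 2 ^ (I - I / 8) ≤ x := by
    rw [hxdef, Nat.le_div_iff_mul_le (by omega)]
    calc 2 ^ (I - I / 8) * D ≤ 2 ^ (I - I / 8) * 2 ^ (I / 8) := Nat.mul_le_mul_left _ hD8
      _ = 2 ^ I := by rw [← pow_add]; congr 1; omega
  have hxle : x ≤ 2 ^ I := Nat.div_le_self _ _
  have hbig : I - I / 8 < 2 ^ (I - I / 8) := Nat.lt_two_pow_self
  have hx0 : x0 ≤ x := by omega
  have hx2 : 2 ≤ x := by omega
  have hcard : ((Icc 1 x).filter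
      (fun p => p.Prime ∧ p % (8 * 2 ^ b) = a % (8 * 2 ^ b))).card ≤
      ((Ioc (2 ^ (I / 2)) x).filter
        (fun p => p.Prime ∧ p % (8 * 2 ^ b) = a % (8 * 2 ^ b))).card + 2 ^ (I / 2) := by
    have hsub : (Icc 1 x).filter (fun p => p.Prime ∧ p % (8 * 2 ^ b) = a % (8 * 2 ^ b)) ⊆
        ((Ioc (2 ^ (I / 2)) x).filter
          (fun p => p.Prime ∧ p % (8 * 2 ^ b) = a % (8 * 2 ^ b))) ∪ Icc 1 (2 ^ (I / 2)) := by
      intro p hp
      rw [Finset.mem_filter, Finset.mem_Icc] at hp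
      rw [Finset.mem_union, Finset.mem_filter, Finset.mem_Ioc, Finset.mem_Icc]
      by_cases h : p ≤ 2 ^ (I / 2)
      · right; exact ⟨hp.1.1, h⟩
      · left; exact ⟨⟨by omega, hp.1.2⟩, hp.2⟩
    refine (Finset.card_le_card hsub).trans ((Finset.card_union_le _ _).trans ?_)
    rw [Nat.card_Icc, Nat.add_sub_cancel]
  have hcardR : (((Icc 1 x).filter
      (fun p => p.Prime ∧ p % (8 * 2 ^ b) = a % (8 * 2 ^ b))).card : ℝ) ≤
      (((Ioc (2 ^ (I / 2)) x).filter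
        (fun p => p.Prime ∧ p % (8 * 2 ^ b) = a % (8 * 2 ^ b))).card : ℝ) + 2 ^ (I / 2) := by
    exact_mod_cast hcard
  have hxR : (2 : ℝ) ≤ x := by exact_mod_cast hx2
  have hlogpos : 0 < Real.log x := Real.log_pos (by linarith)
  have hIpos : (0 : ℝ) < I := by
    have : 0 < I := by omega
    exact_mod_cast this
  have hlogle : Real.log x ≤ I := by
    have h1 : Real.log x ≤ Real.log ((2 : ℝ) ^ I) := by
      apply Real.log_le_log (by linarith)
      exact_mod_cast hxle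
    rw [Real.log_pow] at h1
    have h2 : Real.log 2 ≤ 1 := by
      have := Real.log_two_lt_d9
      linarith
    nlinarith
  have hlogge : (I : ℝ) / 2 ≤ Real.log x := by
    have h1 : Real.log ((2 : ℝ) ^ (I - I / 8)) ≤ Real.log x := by
      apply Real.log_le_log (by positivity)
      exact_mod_cast hxI
    rw [Real.log_pow] at h1
    have h2 : (0.69 : ℝ) ≤ Real.log 2 := by
      have := Real.log_two_gt_d9
      linarith
    have h3 : (7 : ℝ) / 8 * I ≤ ((I - I / 8 : ℕ) : ℝ) := by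
      have h4 : 7 * I ≤ 8 * (I - I / 8) := by omega
      have h5 : (7 : ℝ) * I ≤ 8 * ((I - I / 8 : ℕ) : ℝ) := by exact_mod_cast h4
      linarith
    nlinarith
  have hbl : (8 * 2 ^ b : ℝ) ≤ Real.log x ^ 2 := by
    have h1 : (32 : ℝ) * 2 ^ b ≤ (I : ℝ) ^ 2 := by exact_mod_cast hb
    have h2 : ((I : ℝ) / 2) ^ 2 ≤ Real.log x ^ 2 := pow_le_pow_left₀ (by positivity) hlogge 2
    nlinarith
  have hl := hlow x hx0 b hbl a ha
  have hDpos : (0 : ℝ) < D := by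
    have : 0 < D := by omega
    exact_mod_cast this
  have h2b : (0 : ℝ) < 2 ^ b := by positivity
  -- x ≥ 2^I / (2 D)
  have hxlow : (2 : ℝ) ^ I / (2 * D) ≤ x := by
    have h1 : 2 ^ I < D * (x + 1) := by
      have := Nat.lt_mul_div_succ (2 ^ I) (show 0 < D by omega)
      simpa [hxdef] using this
    have h2 : (2 : ℝ) ^ I < D * (x + 1) := by exact_mod_cast h1
    rw [div_le_iff₀ (by positivity)]
    nlinarith
  have h5 : (2 : ℝ) ^ I / (2 * D) / (5 * I * 2 ^ b) ≤ (x : ℝ) / (5 * Real.log x * 2 ^ b) := by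
    apply div_le_div₀ (by positivity) hxlow (by positivity)
    have : 5 * Real.log x ≤ 5 * I := by linarith
    exact mul_le_mul_of_nonneg_right this h2b.le
  have h6 : (2 : ℝ) ^ (I / 2) ≤ 1 / 20 * (2 ^ I / (D * I)) / 2 ^ b := by
    have h7 : 20 * I * 2 ^ b * D * 2 ^ (I / 2) ≤ 2 ^ I := by
      have e1 : 20 * I * 2 ^ b ≤ I ^ 3 := by
        calc 20 * I * 2 ^ b = 20 * 2 ^ b * I := by ring
          _ ≤ I ^ 2 * I := by
              apply Nat.mul_le_mul_right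
              omega
          _ = I ^ 3 := by ring
      calc 20 * I * 2 ^ b * D * 2 ^ (I / 2) ≤ 2 ^ (I / 4) * 2 ^ (I / 8) * 2 ^ (I / 2) := by
            apply Nat.mul_le_mul_right
            exact Nat.mul_le_mul (e1.trans (cube_two_pow' I hI)) hD8
        _ = 2 ^ (I / 4 + I / 8 + I / 2) := by rw [pow_add, pow_add]
        _ ≤ 2 ^ I := Nat.pow_le_pow_right (by norm_num) (by omega)
    have h8 : 20 * (I : ℝ) * 2 ^ b * D * 2 ^ (I / 2) ≤ 2 ^ I := by exact_mod_cast h7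
    rw [le_div_iff₀ h2b, one_div, inv_mul_eq_div, div_div, le_div_iff₀ (by positivity)]
    nlinarith
  have h9 : (2 : ℝ) ^ I / (2 * D) / (5 * I * 2 ^ b) = 1 / 10 * (2 ^ I / (D * I)) / 2 ^ b := by
    field_simp
    ring
  rw [h9] at h5
  have h10 : 1 / 10 * (2 ^ I / (D * I)) / 2 ^ b =
      1 / 20 * (2 ^ I / (D * I)) / 2 ^ b + 1 / 20 * ((2 : ℝ) ^ I / (D * I)) / 2 ^ b := by ring
  rw [h10] at h5
  linarith

/-- lower bound for the number of tuples whose number lies in a residue class -/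
theorem tupLowAP : ∃ c0 : ℝ, 0 < c0 ∧ ∃ I0 : ℕ, ∀ (M : ℕ) (g : Cfg M), g.Ok → I0 ≤ g.I →
    (∀ j, 2 * (g.k j : ℝ) ^ 2 ≤ 2 ^ (g.κ j) * g.S j) →
    ∀ (b c' : ℕ), 32 * 2 ^ b ≤ g.I ^ 2 → c' % 2 = 1 →
    (∀ A ∈ g.Fam, (g.Rp * g.Q A * g.c) % 8 = c' % 8) →
    c0 / 2 ^ b * (2 ^ g.I / (g.Rp * g.I)) * (g.W / 2 ^ M) ≤
      ((g.Tup.filter (fun t => g.N t % (8 * 2 ^ b) = c' % (8 * 2 ^ b))).card : ℝ) := by
  obtain ⟨x0, hx0⟩ := lowAP
  refine ⟨1 / 20, by norm_num, 2 * x0, ?_⟩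
  intro M g hg hI hk b c' hb hc' hcomp
  have hmass := t1_mass es g hk
  have hRpos : 0 < g.Rp := by
    unfold Cfg.Rp
    exact Finset.prod_pos (fun q hq => (hg.hR q hq).1.pos)
  have hRodd : g.Rp % 2 = 1 := by
    by_contra hcon
    have h2 : 2 ∣ g.Rp := by omega
    unfold Cfg.Rp at h2
    obtain ⟨q, hq, hq2⟩ := (Nat.prime_two.prime.dvd_finsetProd_iff (fun q : ℕ => q)).1 h2
    have h3 := (Nat.prime_dvd_prime_iff_eq Nat.prime_two (hg.hR q hq).1).1 hq2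
    have h4 := (hg.hR q hq).2.1
    omega
  have hmemBlk : ∀ A ∈ g.Fam, ∀ j, ∀ q ∈ A j, q.Prime ∧ q % 8 = 5 := by
    intro A hA j q hq
    unfold Cfg.Fam at hA
    rw [Fintype.mem_piFinset] at hA
    have hAj := (Finset.mem_powersetCard.mp (hA j)).1 hq
    unfold Cfg.Blk PB at hAj
    rw [Finset.mem_sdiff, Finset.mem_filter, Finset.mem_Ioc] at hAj
    exact ⟨hAj.1.2.1, hAj.1.2.2⟩
  have hQpos : ∀ A ∈ g.Fam, 0 < g.Q A := by
    intro A hA
    unfold Cfg.Q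
    apply Finset.prod_pos
    intro j _
    apply Finset.prod_pos
    intro q hq
    exact (hmemBlk A hA j q hq).1.pos
  have hQodd : ∀ A ∈ g.Fam, g.Q A % 2 = 1 := by
    intro A hA
    by_contra hcon
    have h2 : 2 ∣ g.Q A := by omega
    unfold Cfg.Q at h2
    obtain ⟨j, -, hj⟩ := (Nat.prime_two.prime.dvd_finsetProd_iff _).1 h2
    obtain ⟨q, hq, hq2⟩ := (Nat.prime_two.prime.dvd_finsetProd_iff (fun q : ℕ => q)).1 hj
    have h3 := (Nat.prime_dvd_prime_iff_eq Nat.prime_two (hmemBlk A hA j q hq).1).1 hq2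
    have h4 := (hmemBlk A hA j q hq).2
    omega
  have hcard : ((g.Tup.filter (fun t => g.N t % (8 * 2 ^ b) = c' % (8 * 2 ^ b))).card : ℝ) =
      ∑ A ∈ g.Fam, (((g.Pr A).filter
        (fun p => (g.Rp * g.Q A * p) % (8 * 2 ^ b) = c' % (8 * 2 ^ b))).card : ℝ) := by
    unfold Cfg.Tup Cfg.N
    rw [Finset.card_filter, Finset.sum_sigma]
    push_cast
    refine Finset.sum_congr rfl fun A _ => ?_
    rw [Finset.card_filter]
    push_cast
    rfl
  rw [hcard]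
  have hterm : ∀ A ∈ g.Fam, 1 / 20 / 2 ^ b * (2 ^ g.I / (g.Rp * g.I)) * (1 / (g.Q A : ℝ)) ≤
      (((g.Pr A).filter
        (fun p => (g.Rp * g.Q A * p) % (8 * 2 ^ b) = c' % (8 * 2 ^ b))).card : ℝ) := by
    intro A hA
    set D := g.Rp * g.Q A with hDdef
    have hD : 1 ≤ D := Nat.mul_pos hRpos (hQpos A hA)
    have hDodd : D % 2 = 1 := by
      rw [hDdef, Nat.mul_mod, hRodd, hQodd A hA]
    have h8 : 8 * 2 ^ b = 2 ^ (b + 3) := by rw [pow_add]; ring
    have hcop : D.Coprime (8 * 2 ^ b) := by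
      rw [h8]
      apply Nat.Coprime.pow_right
      rw [Nat.coprime_two_right, Nat.odd_iff]
      exact hDodd
    -- the inverse class
    obtain ⟨a, ha⟩ : ∃ a : ℕ, (D * a) % (8 * 2 ^ b) = c' % (8 * 2 ^ b) := by
      obtain ⟨m, -, hm⟩ := Nat.exists_mul_mod_eq_of_coprime c' hcop (by positivity)
      exact ⟨m, hm⟩
    have hdvd2 : 2 ∣ 8 * 2 ^ b := ⟨4 * 2 ^ b, by ring⟩
    have hdvd8 : 8 ∣ 8 * 2 ^ b := Dvd.intro _ rfl
    have haodd : a % 2 = 1 := by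
      have h1 : (D * a) % 2 = c' % 2 := by
        rw [← Nat.mod_mod_of_dvd (D * a) hdvd2, ha, Nat.mod_mod_of_dvd _ hdvd2]
      rw [Nat.mul_mod, hDodd, hc'] at h1
      omega
    have h3 := prAP x0 g.I b a D hg.hI hI hD (hg.hRQ A hA) hb haodd hx0
    have hRr : (0 : ℝ) < g.Rp := by exact_mod_cast hRpos
    have hQr : (0 : ℝ) < g.Q A := by exact_mod_cast hQpos A hA
    have hIr : (0 : ℝ) < g.I := by
      have : 0 < g.I := by have := hg.hI; omega
      exact_mod_cast this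
    have h4 : 1 / 20 / 2 ^ b * ((2 : ℝ) ^ g.I / (g.Rp * g.I)) * (1 / (g.Q A : ℝ)) =
        1 / 20 * (2 ^ g.I / ((D : ℝ) * g.I)) / 2 ^ b := by
      rw [hDdef]
      push_cast
      field_simp
    rw [h4]
    refine h3.trans ?_
    have hsub : (Ioc (2 ^ (g.I / 2)) (2 ^ g.I / D)).filter
        (fun p => p.Prime ∧ p % (8 * 2 ^ b) = a % (8 * 2 ^ b)) ⊆
        (g.Pr A).filter (fun p => (D * p) % (8 * 2 ^ b) = c' % (8 * 2 ^ b)) := by
      intro p hp
      rw [Finset.mem_filter] at hp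
      obtain ⟨hp1, hp2, hp3⟩ := hp
      have hDp : (D * p) % (8 * 2 ^ b) = c' % (8 * 2 ^ b) := by
        rw [Nat.mul_mod, hp3, ← Nat.mul_mod]
        exact ha
      rw [Finset.mem_filter]
      refine ⟨?_, hDp⟩
      unfold Cfg.Pr
      rw [Finset.mem_filter]
      refine ⟨by rw [← hDdef]; exact hp1, hp2, ?_⟩
      have h5 : (D * p) % 8 = (D * g.c) % 8 := by
        rw [← Nat.mod_mod_of_dvd (D * p) hdvd8, hDp, Nat.mod_mod_of_dvd _ hdvd8,
          hcomp A hA]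
      have h6 : p ≡ g.c [MOD 8] := by
        apply Nat.ModEq.cancel_left_of_coprime (c := D) _ h5
        rw [Nat.gcd_comm]
        exact Nat.Coprime.coprime_dvd_right hdvd8 hcop
      have h7 : g.c < 8 := by rcases hg.hc with h | h <;> omega
      unfold Nat.ModEq at h6
      rw [h6, Nat.mod_eq_of_lt h7]
    exact_mod_cast Finset.card_le_card hsub
  calc 1 / 20 / 2 ^ b * (2 ^ g.I / (g.Rp * g.I)) * (g.W / 2 ^ M)
      ≤ 1 / 20 / 2 ^ b * (2 ^ g.I / (g.Rp * g.I)) * ∑ A ∈ g.Fam, 1 / (g.Q A : ℝ) := by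
        apply mul_le_mul_of_nonneg_left hmass
        positivity
    _ = ∑ A ∈ g.Fam, 1 / 20 / 2 ^ b * (2 ^ g.I / (g.Rp * g.I)) * (1 / (g.Q A : ℝ)) := by
        rw [Finset.mul_sum]
    _ ≤ _ := Finset.sum_le_sum hterm

end Pool.Agent.H413R3.Odd
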