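import Pool.Agent.H307R2.OP.Final
import Pool.Agent.H413R3.Odd.PAP
import Pool.Agent.H413R3.Odd.BTU

set_option autoImplicit false

/-!
# Odd values of the partition function in progressions modulo powers of two: the counting step
(the argument of `Pool.Agent.H307R2.OP.mainY` for the tuples in a residue class)
-/

namespace Pool.Agent.H413R3.Odd

open PowerSeries Pool.Agent.H397R2.PP Finset
open Pool.Agent.H307R2.OP
open Pool.Agent.H307R2.OP.MAINaux

/-- the number of `n ≤ x`, `n ≡ ρ (mod 2^b)`, with an odd number of partitions -/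
def oddAP (b ρ x : ℕ) : ℕ :=
  ((range (x + 1)).filter (fun n => n % 2 ^ b = ρ % 2 ^ b ∧
    Odd (Fintype.card (Nat.Partition n)))).card

open Classical in
/-- the counting step -/
theorem stepAP (a1 : OCStmt)
    (a2 : ∀ r m N : ℕ, 3 * m + 1 = 4 ^ r → coeff N (Db ^ m) = 1 →
      ∃ n u : ℕ, Odd (Fintype.card (Nat.Partition n)) ∧ 24 * n + 4 ^ r * u ^ 2 = 3 * N + 1)
    (h1 : TupStmt) {M : ℕ} (g : Cfg M) (hok : g.Ok) (y : ℕ)
    (hcard : ∑ j, g.k j + g.R.card + 1 = 2 ^ (g.r - 1) - 1)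
    (hpar : (g.R.filter (fun q => q % 8 = 3)).card + (if g.c = 3 then 1 else 0) = 0 ∨
      (g.R.filter (fun q => q % 8 = 3)).card + (if g.c = 3 then 1 else 0) = 2)
    (b ρ m : ℕ) (hm : 3 * m + 1 = 4 ^ g.r) (hb : 8 * 2 ^ b ∣ 4 ^ g.r)
    (Bd : ℝ) (hBd : 0 ≤ Bd)
    (hB : ∀ δ s : ℕ, Adm δ → ¬ Bad g.I y δ → 1 ≤ s → δ * s ^ 2 ≤ 3 * 2 ^ g.I →
      (((g.Tup ×ˢ range (2 ^ g.I + 1)).filter
        (fun x => 3 * g.N x.1 = δ * s ^ 2 + 4 ^ g.r * x.2 ^ 2)).card : ℝ) ≤ Bd)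
    (hlost : ((g.Tup.filter (fun t => (∃ δ : ℕ, Adm δ ∧ Bad g.I y δ ∧
      Rep g.r δ (g.N t)) ∨ ∃ u : ℕ, 3 * g.N t + 1 = 4 ^ g.r * u ^ 2)).card : ℝ) ≤
        ((g.Tup.filter (fun t => g.N t % (8 * 2 ^ b) = (8 * ρ + m) % (8 * 2 ^ b))).card : ℝ) / 2) :
    ((g.Tup.filter (fun t => g.N t % (8 * 2 ^ b) = (8 * ρ + m) % (8 * 2 ^ b))).card : ℝ) / 2 ≤
      (oddAP b ρ (2 ^ g.I) : ℝ) * Bd := by
  have key : ∀ t ∈ g.Tup, ∃ n u : ℕ, Odd (Fintype.card (Nat.Partition n)) ∧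
      24 * n + 4 ^ g.r * u ^ 2 = 3 * g.N t + 1 ∧ g.N t ≤ 2 ^ g.I := by
    intro t ht
    obtain ⟨s, hs1, hs2, hs3, hs4, -, -, -, hs8⟩ := h1 M g hok t ht
    have hco : coeff (∏ q ∈ s, q) (Db ^ m) = 1 := by
      refine a1 g.r m hok.hr hm s (fun q hq => ⟨(hs1 q hq).1, (hs1 q hq).2.2⟩) ?_ ?_
      · rw [hs3, hcard]
      · rw [hs4]; exact hpar
    rw [hs2] at hco
    obtain ⟨n, u, hn, hu⟩ := a2 g.r m (g.N t) hm hco
    exact ⟨n, u, hn, hu, hs8⟩
  choose! n u hodd heq hN using key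
  have h4r : 64 ≤ 4 ^ g.r := by
    calc 64 = 4 ^ 3 := by norm_num
      _ ≤ 4 ^ g.r := Nat.pow_le_pow_right (by norm_num) hok.hr
  have hu : ∀ t ∈ g.Tup, u t ≤ 2 ^ g.I := by
    intro t ht
    have e1 := heq t ht
    have e2 := hN t ht
    have e3 : 64 * (u t) ^ 2 ≤ 4 ^ g.r * (u t) ^ 2 := Nat.mul_le_mul_right _ h4r
    have e4 : u t ≤ (u t) ^ 2 := Nat.le_self_pow (by norm_num) _
    have e5 : 1 ≤ 2 ^ g.I := Nat.one_le_two_pow
    omega
  have hn : ∀ t ∈ g.Tup, n t ≤ 2 ^ g.I := by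
    intro t ht
    have e1 := heq t ht
    have e2 := hN t ht
    have e5 : 1 ≤ 2 ^ g.I := Nat.one_le_two_pow
    have e6 : 0 ≤ 4 ^ g.r * (u t) ^ 2 := Nat.zero_le _
    omega
  -- the class of `n`
  have hclass : ∀ t ∈ g.Tup, g.N t % (8 * 2 ^ b) = (8 * ρ + m) % (8 * 2 ^ b) →
      n t % 2 ^ b = ρ % 2 ^ b := by
    intro t ht hNt
    have e1 := heq t ht
    have h1 : g.N t ≡ 8 * ρ + m [MOD 8 * 2 ^ b] := hNt
    have h2 : 4 ^ g.r * (u t) ^ 2 ≡ 0 [MOD 8 * 2 ^ b] := by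
      rw [Nat.modEq_zero_iff_dvd]
      exact Dvd.dvd.mul_right hb _
    have h2' : 4 ^ g.r ≡ 0 [MOD 8 * 2 ^ b] := by
      rw [Nat.modEq_zero_iff_dvd]
      exact hb
    have h3 : 24 * n t ≡ 24 * ρ [MOD 8 * 2 ^ b] := by
      calc 24 * n t ≡ 24 * n t + 4 ^ g.r * (u t) ^ 2 [MOD 8 * 2 ^ b] := by
            simpa using (h2.symm.add_left (24 * n t))
        _ = 3 * g.N t + 1 := e1
        _ ≡ 3 * (8 * ρ + m) + 1 [MOD 8 * 2 ^ b] := (h1.mul_left 3).add_right 1
        _ = 24 * ρ + 4 ^ g.r := by rw [← hm]; ring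
        _ ≡ 24 * ρ + 0 [MOD 8 * 2 ^ b] := h2'.add_left _
        _ = 24 * ρ := by ring
    have h4 : 8 * (3 * n t) ≡ 8 * (3 * ρ) [MOD 8 * 2 ^ b] := by
      have e3 : 8 * (3 * n t) = 24 * n t := by ring
      have e4 : 8 * (3 * ρ) = 24 * ρ := by ring
      rw [e3, e4]
      exact h3
    have h5 : 3 * n t ≡ 3 * ρ [MOD 2 ^ b] := Nat.ModEq.mul_left_cancel' (by norm_num) h4
    exact Nat.ModEq.cancel_left_of_coprime (by
      show Nat.gcd (2 ^ b) 3 = 1
      exact Nat.Coprime.pow_left _ (by norm_num)) h5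
  set T' := g.Tup.filter (fun t => g.N t % (8 * 2 ^ b) = (8 * ρ + m) % (8 * 2 ^ b)) with hT'
  set P : (Σ _ : Fin M → Finset ℕ, ℕ) → Prop := fun t => (∃ δ : ℕ, Adm δ ∧ Bad g.I y δ ∧
      Rep g.r δ (g.N t)) ∨ ∃ u : ℕ, 3 * g.N t + 1 = 4 ^ g.r * u ^ 2 with hP
  have hsum : (T'.filter P).card + (T'.filter (fun t => ¬ P t)).card = T'.card :=
    Finset.card_filter_add_card_filter_not P
  have hTle : ((T'.filter P).card : ℝ) ≤ ((g.Tup.filter P).card : ℝ) := by
    exact_mod_cast Finset.card_le_card (Finset.filter_subset_filter _ (Finset.filter_subset _ _))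
  set Good := T'.filter (fun t => ¬ P t) with hGood
  have hgood : (T'.card : ℝ) / 2 ≤ (Good.card : ℝ) := by
    have : ((T'.filter P).card : ℝ) + (Good.card : ℝ) = (T'.card : ℝ) := by
      exact_mod_cast hsum
    linarith
  refine hgood.trans ?_
  rw [Finset.card_eq_sum_card_image n Good]
  push_cast
  have himg : Good.image n ⊆
      (range (2 ^ g.I + 1)).filter (fun n => n % 2 ^ b = ρ % 2 ^ b ∧
        Odd (Fintype.card (Nat.Partition n))) := by
    intro b' hb'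
    obtain ⟨t, ht, rfl⟩ := Finset.mem_image.1 hb'
    have ht0 := (Finset.mem_filter.1 ht).1
    obtain ⟨ht', hcl⟩ := Finset.mem_filter.1 ht0
    rw [Finset.mem_filter, Finset.mem_range]
    exact ⟨Nat.lt_succ_of_le (hn t ht'), hclass t ht' hcl, hodd t ht'⟩
  have hcardimg : ((Good.image n).card : ℝ) ≤ (oddAP b ρ (2 ^ g.I) : ℝ) := by
    have := Finset.card_le_card himg
    unfold oddAP
    exact_mod_cast this
  have hfib : ∀ b ∈ Good.image n, ((Good.filter (fun t => n t = b)).card : ℝ) ≤ Bd := by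
    intro b hb
    obtain ⟨t, ht, htb⟩ := Finset.mem_image.1 hb
    obtain ⟨ht0, hnp⟩ := Finset.mem_filter.1 ht
    have ht' := (Finset.mem_filter.1 ht0).1
    simp only [hP, not_or, not_exists, not_and] at hnp
    obtain ⟨hnp1, hnp2⟩ := hnp
    have hb1 : 1 ≤ b := by
      rcases Nat.eq_zero_or_pos b with h | h
      · exfalso
        have e1 := heq t ht'
        rw [htb, h] at e1
        exact hnp2 (u t) (by omega)
      · exact h
    obtain ⟨δ, s, hδs, hadm, hs⟩ := kernel b hb1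
    have e1 := heq t ht'
    have e2 := hN t ht'
    rw [htb] at e1
    have hrep : 3 * g.N t = δ * s ^ 2 + 4 ^ g.r * (u t) ^ 2 := by
      rw [hδs]; omega
    have hnb : ¬ Bad g.I y δ := fun hbad => hnp1 δ hadm hbad ⟨s, u t, hrep⟩
    have hle : δ * s ^ 2 ≤ 3 * 2 ^ g.I := by
      have e6 : 0 ≤ 4 ^ g.r * (u t) ^ 2 := Nat.zero_le _
      omega
    refine le_trans ?_ (hB δ s hadm hnb hs hle)
    have : (Good.filter (fun t => n t = b)).card ≤
        ((g.Tup ×ˢ range (2 ^ g.I + 1)).filter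
          (fun x => 3 * g.N x.1 = δ * s ^ 2 + 4 ^ g.r * x.2 ^ 2)).card := by
      refine Finset.card_le_card_of_injOn (fun t => (t, u t)) ?_ ?_
      · intro t' ht2
        simp only [Finset.coe_filter, Set.mem_ofPred_eq] at ht2
        obtain ⟨ht3, ht4⟩ := ht2
        have ht5 := (Finset.mem_filter.1 (Finset.mem_filter.1 ht3).1).1
        have e7 := heq t' ht5
        rw [ht4] at e7
        simp only [Finset.coe_filter, Set.mem_ofPred_eq, Finset.mem_product, Finset.mem_range]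
        refine ⟨⟨ht5, Nat.lt_succ_of_le (hu t' ht5)⟩, ?_⟩
        rw [hδs]; omega
      · intro a _ b _ hab
        exact (Prod.mk.inj hab).1
    exact_mod_cast this
  calc ∑ b ∈ Good.image n, ((Good.filter (fun t => n t = b)).card : ℝ)
      ≤ ∑ b ∈ Good.image n, Bd := Finset.sum_le_sum hfib
    _ = ((Good.image n).card : ℝ) * Bd := by rw [Finset.sum_const, nsmul_eq_mul]
    _ ≤ (oddAP b ρ (2 ^ g.I) : ℝ) * Bd := mul_le_mul_of_nonneg_right hcardimg hBd


theorem pow5 (n : ℕ) (h : n % 2 = 1) : (5 : ZMod 8) ^ n = 5 := by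
  obtain ⟨k, rfl⟩ : ∃ k, n = 2 * k + 1 := ⟨n / 2, by omega⟩
  rw [pow_succ, pow_mul]
  have : (5 : ZMod 8) ^ 2 = 1 := by decide
  rw [this, one_pow, one_mul]

theorem cast5 (q : ℕ) (h : q % 8 = 5) : (q : ZMod 8) = 5 := by
  have h1 : ((q % 8 : ℕ) : ZMod 8) = (q : ZMod 8) := ZMod.natCast_mod q 8
  rw [← h1, h]
  rfl

theorem cast3 (q : ℕ) (h : q % 8 = 3) : (q : ZMod 8) = 3 := by
  have h1 : ((q % 8 : ℕ) : ZMod 8) = (q : ZMod 8) := ZMod.natCast_mod q 8
  rw [← h1, h]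
  rfl

theorem m_mod8 (r m : ℕ) (hr : 3 ≤ r) (hm : 3 * m + 1 = 4 ^ r) : m % 8 = 5 := by
  obtain ⟨k, rfl⟩ := Nat.exists_eq_add_of_le hr
  rw [pow_add] at hm
  have : (4 : ℕ) ^ 3 = 64 := by norm_num
  rw [this] at hm
  omega

/-- all numbers of tuples are `≡ 5 (mod 8)` -/
theorem compat {M : ℕ} (g : Cfg M) (hok : g.Ok)
    (hcard : ∑ j, g.k j + g.R.card + 1 = 2 ^ (g.r - 1) - 1)
    (hpar : (g.R.filter (fun q => q % 8 = 3)).card + (if g.c = 3 then 1 else 0) = 0 ∨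
      (g.R.filter (fun q => q % 8 = 3)).card + (if g.c = 3 then 1 else 0) = 2)
    (A : Fin M → Finset ℕ) (hA : A ∈ g.Fam) : (g.Rp * g.Q A * g.c) % 8 = 5 := by
  have hodd : (∑ j, g.k j + g.R.card) % 2 = 0 := by
    obtain ⟨k, hk⟩ := Nat.exists_eq_add_of_le hok.hr
    rw [hk] at hcard
    have e1 : 3 + k - 1 = (k + 1) + 1 := by omega
    rw [e1, pow_succ] at hcard
    have : 1 ≤ 2 ^ (k + 1) := Nat.one_le_two_pow
    omega
  have hQ : ((g.Q A : ℕ) : ZMod 8) = 5 ^ (∑ j, g.k j) := by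
    unfold Cfg.Q
    push_cast
    rw [← Finset.prod_pow_eq_pow_sum]
    refine Finset.prod_congr rfl fun j _ => ?_
    unfold Cfg.Fam at hA
    rw [Fintype.mem_piFinset] at hA
    obtain ⟨hA1, hA2⟩ := Finset.mem_powersetCard.mp (hA j)
    rw [Finset.prod_congr rfl (g := fun _ => (5 : ZMod 8)), Finset.prod_const, hA2]
    intro q hq
    have hAj := hA1 hq
    unfold Cfg.Blk PB at hAj
    rw [Finset.mem_sdiff, Finset.mem_filter, Finset.mem_Ioc] at hAj
    exact cast5 q hAj.1.2.2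
  set a := (g.R.filter (fun q => q % 8 = 3)).card with ha
  have hale : a ≤ g.R.card := Finset.card_filter_le _ _
  have hR : ((g.Rp : ℕ) : ZMod 8) = 3 ^ a * 5 ^ (g.R.card - a) := by
    unfold Cfg.Rp
    push_cast
    rw [← Finset.prod_filter_mul_prod_filter_not g.R (fun q => q % 8 = 3)]
    have h1 : ∏ x ∈ g.R.filter (fun q => q % 8 = 3), (x : ZMod 8) = 3 ^ a := by
      rw [Finset.prod_congr rfl (g := fun _ => (3 : ZMod 8)), Finset.prod_const]
      intro q hq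
      exact cast3 q (Finset.mem_filter.1 hq).2
    have h2 : ∏ x ∈ g.R.filter (fun q => ¬ q % 8 = 3), (x : ZMod 8) = 5 ^ (g.R.card - a) := by
      have h3 : (g.R.filter (fun q => ¬ q % 8 = 3)).card = g.R.card - a := by
        have := Finset.card_filter_add_card_filter_not (s := g.R) (fun q => q % 8 = 3)
        omega
      rw [Finset.prod_congr rfl (g := fun _ => (5 : ZMod 8)), Finset.prod_const, h3]
      intro q hq
      obtain ⟨hq1, hq2⟩ := Finset.mem_filter.1 hq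
      exact cast5 q ((hok.hR q hq1).2.2.resolve_left hq2)
    rw [h1, h2]
  have h32 : (3 : ZMod 8) ^ 2 = 1 := by decide
  have h3c : (3 : ZMod 8) * 3 = 1 := by decide
  have hfin : ((g.Rp * g.Q A * g.c : ℕ) : ZMod 8) = 5 := by
    push_cast
    rw [hQ, hR]
    rcases hok.hc with hc | hc
    · have h1 : a = 1 := by
        rw [hc] at hpar
        simp at hpar
        omega
      rw [hc, h1]
      have e : (3 : ZMod 8) ^ 1 * 5 ^ (g.R.card - 1) * 5 ^ (∑ j, g.k j) * ((3 : ℕ) : ZMod 8) =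
          (3 * 3) * 5 ^ (g.R.card - 1 + ∑ j, g.k j) := by
        rw [pow_add]
        push_cast
        ring
      rw [e, h3c, one_mul]
      exact pow5 _ (by omega)
    · have h1 : a = 0 ∨ a = 2 := by
        rw [hc] at hpar
        simp at hpar
        rcases hpar with h | h
        · left
          exact h
        · right
          omega
      have h2 : (3 : ZMod 8) ^ a = 1 := by
        rcases h1 with h | h <;> rw [h]
        · rw [pow_zero]
        · exact h32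
      rw [hc, h2]
      have e : (1 : ZMod 8) * 5 ^ (g.R.card - a) * 5 ^ (∑ j, g.k j) * ((5 : ℕ) : ZMod 8) =
          5 ^ (g.R.card - a + ∑ j, g.k j + 1) := by
        rw [pow_succ, pow_add]
        push_cast
        ring
      rw [e]
      exact pow5 _ (by omega)
  have h5 : ((g.Rp * g.Q A * g.c : ℕ) : ZMod 8) = ((5 : ℕ) : ZMod 8) := by
    rw [hfin]
    rfl
  rw [ZMod.natCast_eq_natCast_iff] at h5
  exact h5

/-- the main theorem in terms of the parameter `y` -/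
theorem mainYAP : ∀ M : ℕ, 1 ≤ M → ∃ y0 : ℕ, ∀ y : ℕ, y0 ≤ y → ∀ I : ℕ,
    y ^ (2 * M + 4) ≤ I → I ≤ 2 * y ^ (2 * M + 4) → ∀ b ρ : ℕ, 2 ^ b ≤ y ^ (4 * M - 3) →
    Real.sqrt (2 ^ I) * (y : ℝ) ^ (2 * M - 3 : ℤ) / 2 ^ b ≤ (oddAP b ρ (2 ^ I) : ℝ) := by
  intro M hM
  obtain ⟨c0, hc0, I1, h2'⟩ := tupLowAP
  obtain ⟨C, hC, I2, h3'⟩ := good_main
  obtain ⟨y4, h4'⟩ := par_main M hM
  obtain ⟨y5, h5'⟩ := rChoice_main M hM
  obtain ⟨y6, h6'⟩ := badTotalU qr tup tupLarge_main tupSmall_main tupZero_main badSum_main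
    badNum_main strongBad_main par_main M hM c0 hc0
  obtain ⟨y7, h7'⟩ := poly_exp M
  have hs3 : (0:ℝ) < Real.sqrt 3 := Real.sqrt_pos.2 (by norm_num)
  obtain ⟨y8, h8'⟩ := log_small M (c0 / (8 * 2 ^ M * C * Real.exp M * Real.sqrt 3))
    (by positivity)
  refine ⟨y4 + y5 + y6 + y7 + y8 + I1 + I2 + 20, fun y hy I hI1 hI2 b ρ hb => ?_⟩
  have hy20 : 20 ≤ y := by omega
  have hyI : y ≤ y ^ (2 * M + 4) := Nat.le_self_pow (by omega) _
  obtain ⟨R, c, hRC⟩ := h5' y (by omega) I hI1 hI2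
  obtain ⟨hok, hcard, hr1, hr2, hk, hS, hκ, h2k, hprod, hW⟩ :=
    h4' y (by omega) I hI1 hI2 R c hRC.card hRC.pr hRC.le hRC.cl
  have hWpos : 0 < (cfg M y I R c).W := lt_of_lt_of_le (by positivity) hW
  have hIpow : I ≤ 2 ^ y := hI2.trans (h7' y (by omega))
  have hL : Nat.log 2 I ≤ y := by
    have := Nat.log_mono_right (b := 2) hIpow
    rwa [Nat.log_pow (by norm_num)] at this
  have hIbig : 4000 * y * (Nat.log 2 I + 1) ≤ I := by
    have e1 : 4000 * y * (Nat.log 2 I + 1) ≤ 4000 * y * (2 * y) :=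
      Nat.mul_le_mul_left _ (by omega)
    have e2 : y ^ 6 ≤ y ^ (2 * M + 4) := Nat.pow_le_pow_right (by omega) (by omega)
    have e3 : 20 ^ 4 ≤ y ^ 4 := Nat.pow_le_pow_left hy20 4
    have e4 : 8000 * y ^ 2 ≤ y ^ 6 := by
      calc 8000 * y ^ 2 ≤ y ^ 4 * y ^ 2 := Nat.mul_le_mul_right _ (by omega)
        _ = y ^ 6 := by ring
    calc 4000 * y * (Nat.log 2 I + 1) ≤ 4000 * y * (2 * y) := e1
      _ = 8000 * y ^ 2 := by ring
      _ ≤ I := by omega
  have hksum : ∑ j, (cfg M y I R c).k j + (cfg M y I R c).R.card ≤ I := by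
    have e1 : y ^ (2 * M - 1) ≤ y ^ (2 * M + 4) := Nat.pow_le_pow_right (by omega) (by omega)
    have e2 : (cfg M y I R c).R.card = R.card := rfl
    rw [e2]
    omega
  -- the modulus
  have hmod : 8 * 2 ^ b ∣ 4 ^ (rr M y) := by
    have e1 : 8 * 2 ^ b = 2 ^ (b + 3) := by rw [pow_add]; ring
    have e2 : (4 : ℕ) ^ (rr M y) = 2 ^ (2 * rr M y) := by
      rw [pow_mul]; norm_num
    rw [e1, e2]
    apply pow_dvd_pow
    have e3 : 2 ^ (b + 3) < 2 ^ (2 * rr M y) := by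
      calc 2 ^ (b + 3) = 8 * 2 ^ b := e1.symm
        _ ≤ y * y ^ (4 * M - 3) := Nat.mul_le_mul (by omega) hb
        _ = y ^ (2 * M - 1) * y ^ (2 * M - 1) := by
            rw [← pow_add, ← pow_succ']
            congr 1
            omega
        _ < 2 ^ (rr M y) * 2 ^ (rr M y) := Nat.mul_lt_mul'' hr2 hr2
        _ = 2 ^ (2 * rr M y) := by rw [two_mul, pow_add]
    exact ((Nat.pow_lt_pow_iff_right (by norm_num)).1 e3).le
  obtain ⟨m, hm⟩ := exists_m (rr M y)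
  have hm8 : m % 8 = 5 := m_mod8 (rr M y) m hok.hr hm
  have hb32 : 32 * 2 ^ b ≤ I ^ 2 := by
    calc 32 * 2 ^ b ≤ y ^ 2 * y ^ (4 * M - 3) := by
          apply Nat.mul_le_mul _ hb
          nlinarith
      _ = y ^ (4 * M - 1) := by rw [← pow_add]; congr 1; omega
      _ ≤ y ^ ((2 * M + 4) * 2) := Nat.pow_le_pow_right (by omega) (by omega)
      _ = (y ^ (2 * M + 4)) ^ 2 := by rw [pow_mul]
      _ ≤ I ^ 2 := Nat.pow_le_pow_left hI1 2
  have hTlow := h2' M (cfg M y I R c) hok (show I1 ≤ I by omega) h2k b (8 * ρ + m) hb32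
    (by omega) (fun A hA => by
      rw [compat (cfg M y I R c) hok hcard hRC.par A hA]
      omega)
  have hbR : (2 : ℝ) ^ b ≤ (y : ℝ) ^ (4 * M - 3) := by exact_mod_cast hb
  have hyR : (0:ℝ) < y := by exact_mod_cast (by omega : 0 < y)
  have hIR : (0:ℝ) < I := by
    have : 0 < I := by
      have : 0 < y ^ (2 * M + 4) := by positivity
      omega
    exact_mod_cast this
  have hRp : (0:ℝ) < ((cfg M y I R c).Rp : ℝ) := by
    have : 0 < (cfg M y I R c).Rp := Finset.prod_pos (fun q hq => (hRC.pr q hq).1.pos)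
    exact_mod_cast this
  have hlost := h6' y (by omega) I hI1 hI2 R c hRC
  classical
  have hlost' : (((cfg M y I R c).Tup.filter (fun t => (∃ δ : ℕ, Adm δ ∧
      Bad (cfg M y I R c).I y δ ∧ Rep (cfg M y I R c).r δ ((cfg M y I R c).N t)) ∨
      ∃ u : ℕ, 3 * (cfg M y I R c).N t + 1 = 4 ^ (cfg M y I R c).r * u ^ 2)).card : ℝ) ≤
      (((cfg M y I R c).Tup.filter (fun t => (cfg M y I R c).N t % (8 * 2 ^ b) =
        (8 * ρ + m) % (8 * 2 ^ b))).card : ℝ) / 2 := by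
    have e1 : c0 / (y : ℝ) ^ (4 * M - 3) * (2 ^ I / ((cfg M y I R c).Rp * I)) *
        ((cfg M y I R c).W / 2 ^ M) * (3 / 8) ≤
        c0 / 2 ^ b * (2 ^ I / ((cfg M y I R c).Rp * I)) *
        ((cfg M y I R c).W / 2 ^ M) / 2 := by
      have e2 : c0 / (y : ℝ) ^ (4 * M - 3) ≤ c0 / 2 ^ b :=
        div_le_div_of_nonneg_left hc0.le (by positivity) hbR
      have e3 : 0 ≤ (2 : ℝ) ^ I / ((cfg M y I R c).Rp * I) * ((cfg M y I R c).W / 2 ^ M) := by
        positivity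
      have e4 := mul_le_mul_of_nonneg_right e2 e3
      have e5 : 0 ≤ c0 / (y : ℝ) ^ (4 * M - 3) *
          ((2 : ℝ) ^ I / ((cfg M y I R c).Rp * I) * ((cfg M y I R c).W / 2 ^ M)) := by positivity
      nlinarith
    have e6 : c0 / 2 ^ b * (2 ^ I / ((cfg M y I R c).Rp * I)) *
        ((cfg M y I R c).W / 2 ^ M) / 2 ≤
        (((cfg M y I R c).Tup.filter (fun t => (cfg M y I R c).N t % (8 * 2 ^ b) =
        (8 * ρ + m) % (8 * 2 ^ b))).card : ℝ) / 2 := by
      apply div_le_div_of_nonneg_right _ (by norm_num)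
      exact hTlow
    refine le_trans (le_trans (le_of_eq ?_) hlost) (e1.trans e6)
    congr
  have hA := stepAP oc_main exists_odd tup (cfg M y I R c) hok y hcard hRC.par b ρ m hm hmod
    (C * 2 ^ (cfg M y I R c).R.card * ((cfg M y I R c).U / (cfg M y I R c).Rp) *
      (∏ j, (((cfg M y I R c).S j + 1 / (I : ℝ) ^ 2 +
        (cfg M y I R c).R.card / 2 ^ ((cfg M y I R c).κ j)) ^ (cfg M y I R c).k j /
        (((cfg M y I R c).k j).factorial : ℝ))) * (y * (Nat.log 2 I + 1) / I))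
    (by
      have hSnn : ∀ j, 0 ≤ (cfg M y I R c).S j := fun j => by
        unfold Cfg.S
        exact Finset.sum_nonneg (fun q _ => by positivity)
      have hU : 0 ≤ (cfg M y I R c).U := by unfold Cfg.U; positivity
      have hp : 0 ≤ (∏ j, (((cfg M y I R c).S j + 1 / (I : ℝ) ^ 2 +
        (cfg M y I R c).R.card / 2 ^ ((cfg M y I R c).κ j)) ^ (cfg M y I R c).k j /
        (((cfg M y I R c).k j).factorial : ℝ))) := by
        refine Finset.prod_nonneg (fun j _ => ?_)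
        have := hSnn j
        positivity
      positivity)
    (fun δ s h1 h2 h3 h4 => by
      have h0 := h3' M (cfg M y I R c) hok (show I2 ≤ I by omega) y (by omega)
        hIpow hIbig hκ hksum δ s h1 h2 h3 h4
      refine le_trans (le_of_eq ?_) h0
      congr)
    (by
      refine le_trans (le_of_eq ?_) hlost'
      congr)
  have hB := stepB (c0 / 2 ^ b) C I ((cfg M y I R c).Rp) ((cfg M y I R c).U) (Real.exp M)
    ((cfg M y I R c).W) y (Nat.log 2 I + 1) (2 ^ (cfg M y I R c).R.card)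
    (((cfg M y I R c).Tup.filter (fun t => (cfg M y I R c).N t % (8 * 2 ^ b) =
        (8 * ρ + m) % (8 * 2 ^ b))).card) (oddAP b ρ (2 ^ I))
    (∏ j, (((cfg M y I R c).S j + 1 / (I : ℝ) ^ 2 +
        (cfg M y I R c).R.card / 2 ^ ((cfg M y I R c).κ j)) ^ (cfg M y I R c).k j /
        (((cfg M y I R c).k j).factorial : ℝ))) (2 ^ M) (Real.sqrt 3) (Real.sqrt (2 ^ I))
    (2 ^ (rr M y)) (by positivity) hC hIR hRp (Real.exp_pos _) hWpos hyR (by positivity)
    (by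
      have : R.card ≤ 2 := hRC.card
      calc (2:ℝ) ^ (cfg M y I R c).R.card ≤ 2 ^ 2 :=
            pow_le_pow_right₀ (by norm_num) this
        _ = 4 := by norm_num)
    (by positivity) (by positivity) hprod (by positivity) (by positivity) hs3 (by positivity)
    (by
      unfold Cfg.U
      rw [Real.sqrt_mul (by norm_num)]
      rfl)
    (by
      rw [Real.sq_sqrt (by positivity)]
      exact hTlow)
    (by
      refine le_trans (le_of_eq ?_) hA
      congr)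
  refine le_trans ?_ hB
  have h8 := h8' y (by omega) I hI2
  push_cast at h8
  have hr2' : (y:ℝ) ^ (2 * M - 1) ≤ 2 ^ (rr M y) := by exact_mod_cast hr2.le
  have hzp : (y : ℝ) ^ (2 * M - 3 : ℤ) = (y:ℝ) ^ (2 * M - 1) / (y:ℝ) ^ 2 := by
    have e1 : (2 * M - 3 : ℤ) = ((2 * M - 1 : ℕ) : ℤ) - ((2 : ℕ) : ℤ) := by
      have : 1 ≤ 2 * M := by omega
      push_cast [this]
      ring
    rw [e1, zpow_sub₀ hyR.ne', zpow_natCast, zpow_natCast]
  rw [hzp]
  have hsI : 0 < Real.sqrt (2 ^ I) := Real.sqrt_pos.2 (by positivity)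
  have hLpos : (0:ℝ) < (Nat.log 2 I : ℝ) + 1 := by positivity
  have hexp : 0 < Real.exp M := Real.exp_pos _
  have h2b : (0 : ℝ) < 2 ^ b := by positivity
  rw [div_mul_eq_mul_div, le_div_iff₀ (by positivity)] at h8
  have hsplit : c0 / 2 ^ b * Real.sqrt (2 ^ I) * 2 ^ (rr M y) /
      (8 * 2 ^ M * C * Real.exp M * Real.sqrt 3 * y * ((Nat.log 2 I : ℝ) + 1)) =
      (c0 * Real.sqrt (2 ^ I) * 2 ^ (rr M y) /
      (8 * 2 ^ M * C * Real.exp M * Real.sqrt 3 * y * ((Nat.log 2 I : ℝ) + 1))) / 2 ^ b := by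
    field_simp
  rw [hsplit]
  apply div_le_div_of_nonneg_right _ h2b.le
  rw [← mul_div_assoc, div_le_div_iff₀ (by positivity) (by positivity)]
  calc Real.sqrt (2 ^ I) * (y:ℝ) ^ (2 * M - 1) *
        (8 * 2 ^ M * C * Real.exp M * Real.sqrt 3 * y * ((Nat.log 2 I : ℝ) + 1))
      = Real.sqrt (2 ^ I) * (y:ℝ) ^ (2 * M - 1) * y *
        (((Nat.log 2 I : ℝ) + 1) * (8 * 2 ^ M * C * Real.exp M * Real.sqrt 3)) := by ring
    _ ≤ Real.sqrt (2 ^ I) * 2 ^ (rr M y) * y * (c0 * y) := by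
        apply mul_le_mul _ h8 (by positivity) (by positivity)
        apply mul_le_mul_of_nonneg_right _ hyR.le
        exact mul_le_mul_of_nonneg_left hr2' hsI.le
    _ = c0 * Real.sqrt (2 ^ I) * 2 ^ (rr M y) * (y:ℝ) ^ 2 := by ring

end Pool.Agent.H413R3.Odd
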